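import Mathlib

/-!
# Small cancellation in the free group of rank two (for `MP_3ace2b_pr`)
-/

set_option autoImplicit false

namespace Pool.Agent.X264.AR

/-- The free group of rank two. -/
abbrev F := FreeGroup (Fin 2)

/-- The free generators. -/
def gen (i : Fin 2) : F := FreeGroup.of i

/-! ### An action of the free group -/

/-- The shears. -/
def shear (i : Fin 2) (n : ℤ) : Equiv.Perm (ℤ × ℤ) :=
  if i = 0 then
    { toFun := fun v => (v.1 + 3 * n * v.2, v.2)
      invFun := fun v => (v.1 - 3 * n * v.2, v.2)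
      left_inv := fun v => by ext <;> simp
      right_inv := fun v => by ext <;> simp }
  else
    { toFun := fun v => (v.1, v.2 + 3 * n * v.1)
      invFun := fun v => (v.1, v.2 - 3 * n * v.1)
      left_inv := fun v => by ext <;> simp
      right_inv := fun v => by ext <;> simp }

theorem shear_zero_apply (n : ℤ) (v : ℤ × ℤ) : shear 0 n v = (v.1 + 3 * n * v.2, v.2) := rfl

theorem shear_one_apply (n : ℤ) (v : ℤ × ℤ) : shear 1 n v = (v.1, v.2 + 3 * n * v.1) := rfl

theorem shear_add (i : Fin 2) (m n : ℤ) : shear i (m + n) = shear i m * shear i n := by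
  ext v
  · fin_cases i
    · simp only [Fin.zero_eta, Equiv.Perm.mul_apply, shear_zero_apply]; ring
    · simp only [Fin.mk_one, Equiv.Perm.mul_apply, shear_one_apply]
  · fin_cases i
    · simp only [Fin.zero_eta, Equiv.Perm.mul_apply, shear_zero_apply]
    · simp only [Fin.mk_one, Equiv.Perm.mul_apply, shear_one_apply]; ring

/-- The powers of a shear. -/
def shearHom (i : Fin 2) : Multiplicative ℤ →* Equiv.Perm (ℤ × ℤ) where
  toFun n := shear i n.toAdd
  map_one' := by
    have := shear_add i 0 0
    rw [add_zero] at this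
    exact (mul_eq_left.1 this.symm : shear i 0 = 1)
  map_mul' m n := shear_add i m.toAdd n.toAdd

/-- The action. -/
def act : F →* Equiv.Perm (ℤ × ℤ) := FreeGroup.lift fun i => shear i 1

theorem act_gen_zpow (i : Fin 2) (n : ℤ) : act (gen i ^ n) = shear i n := by
  have h1 : act (gen i) = shearHom i (Multiplicative.ofAdd 1) := by
    simp [act, gen, shearHom]
  rw [map_zpow, h1, ← map_zpow, ← ofAdd_zsmul]
  simp [shearHom]

/-! ### Syllables -/

/-- The value of a list of syllables. -/
def eval (l : List (Fin 2 × ℤ)) : F := (l.map fun s => gen s.1 ^ s.2).prod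

@[simp] theorem eval_nil : eval [] = 1 := rfl

@[simp] theorem eval_cons (s : Fin 2 × ℤ) (l : List (Fin 2 × ℤ)) :
    eval (s :: l) = gen s.1 ^ s.2 * eval l := by
  simp [eval]

@[simp] theorem eval_append (l l' : List (Fin 2 × ℤ)) : eval (l ++ l') = eval l * eval l' := by
  simp [eval]

/-- Adjacent syllables are of different type and the exponents do not vanish. -/
def Red (l : List (Fin 2 × ℤ)) : Prop :=
  l.IsChain (fun s t => s.1 ≠ t.1) ∧ ∀ s ∈ l, s.2 ≠ 0

theorem Red.nil : Red [] := ⟨List.IsChain.nil, by simp⟩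

theorem Red.tail {s : Fin 2 × ℤ} {l : List (Fin 2 × ℤ)} (h : Red (s :: l)) : Red l :=
  ⟨h.1.tail, fun t ht => h.2 t (List.mem_cons_of_mem _ ht)⟩

theorem red_singleton {s : Fin 2 × ℤ} (h : s.2 ≠ 0) : Red [s] :=
  ⟨List.isChain_singleton _, by simpa using h⟩

theorem red_cons_cons {s t : Fin 2 × ℤ} {l : List (Fin 2 × ℤ)} :
    Red (s :: t :: l) ↔ s.1 ≠ t.1 ∧ s.2 ≠ 0 ∧ Red (t :: l) := by
  unfold Red
  rw [List.isChain_cons_cons]
  constructor
  · rintro ⟨⟨h1, h2⟩, h3⟩
    exact ⟨h1, h3 s List.mem_cons_self, h2, fun u hu => h3 u (List.mem_cons_of_mem _ hu)⟩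
  · rintro ⟨h1, h2, h3, h4⟩
    refine ⟨⟨h1, h3⟩, fun u hu => ?_⟩
    rcases List.mem_cons.1 hu with rfl | hu
    · exact h2
    · exact h4 u hu

theorem region (l : List (Fin 2 × ℤ)) (s : Fin 2 × ℤ) (h : Red (s :: l)) :
    (s.1 = 0 → |(act (eval (s :: l)) (1, 1)).2| < |(act (eval (s :: l)) (1, 1)).1|) ∧
    (s.1 = 1 → |(act (eval (s :: l)) (1, 1)).1| < |(act (eval (s :: l)) (1, 1)).2|) := by
  have key : ∀ x y n : ℤ, n ≠ 0 → |x| < |y| → |y| < |x + 3 * n * y| := by
    intro x y n hn hxy
    have h1 : |3 * n * y| = 3 * |n| * |y| := by rw [abs_mul, abs_mul]; simp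
    have h2 : 1 ≤ |n| := Int.one_le_abs hn
    have h3 : |3 * n * y| ≤ |x + 3 * n * y| + |x| := by
      have := abs_add_le (x + 3 * n * y) (-x)
      rw [abs_neg] at this
      have e : x + 3 * n * y + -x = 3 * n * y := by ring
      rwa [e] at this
    have h4 : 0 ≤ |y| := abs_nonneg y
    have h5 : |y| ≤ |n| * |y| := le_mul_of_one_le_left h4 h2
    nlinarith [abs_nonneg x]
  have key1 : ∀ n : ℤ, n ≠ 0 → |(1 : ℤ)| < |1 + 3 * n * 1| := by
    intro n hn
    rw [abs_one, mul_one]
    rcases lt_or_gt_of_ne hn with h | h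
    · rw [abs_of_neg (by omega)]; omega
    · rw [abs_of_pos (by omega)]; omega
  have hs : s.2 ≠ 0 := h.2 s List.mem_cons_self
  have fin2 : ∀ i : Fin 2, i ≠ 0 → i = 1 := by decide
  have fin2' : ∀ i : Fin 2, i ≠ 1 → i = 0 := by decide
  induction l generalizing s with
  | nil =>
    obtain ⟨i, n⟩ := s
    simp only [eval_cons, eval_nil, mul_one, act_gen_zpow]
    refine ⟨?_, ?_⟩
    · rintro rfl
      rw [shear_zero_apply]
      exact key1 n hs
    · rintro rfl
      rw [shear_one_apply]
      exact key1 n hs
  | cons t l ih =>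
    obtain ⟨h1, h2, h3⟩ := red_cons_cons.1 h
    obtain ⟨i1, i2⟩ := ih t h3 (h3.2 t List.mem_cons_self)
    rw [eval_cons, map_mul, Equiv.Perm.mul_apply, act_gen_zpow]
    refine ⟨fun hs0 => ?_, fun hs1 => ?_⟩
    · have ht : t.1 = 1 := fin2 _ fun e => h1 (hs0.trans e.symm)
      rw [hs0, shear_zero_apply]
      exact key _ _ _ hs (i2 ht)
    · have ht : t.1 = 0 := fin2' _ fun e => h1 (hs1.trans e.symm)
      rw [hs1, shear_one_apply]
      exact key _ _ _ hs (i1 ht)

theorem eval_ne_one {l : List (Fin 2 × ℤ)} (h : Red l) (hne : l ≠ []) : eval l ≠ 1 := by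
  obtain ⟨s, l, rfl⟩ := List.exists_cons_of_ne_nil hne
  intro e
  obtain ⟨h1, h2⟩ := region l s h
  rw [e, map_one, Equiv.Perm.one_apply] at h1 h2
  obtain ⟨i, n⟩ := s
  fin_cases i
  · exact absurd (h1 rfl) (lt_irrefl _)
  · exact absurd (h2 rfl) (lt_irrefl _)

/-! ### Bounded exponents -/

/-- `g` has a reduced expression with exponents of size at most `C`. -/
def Bd (C : ℤ) (g : F) : Prop :=
  ∃ l, Red l ∧ eval l = g ∧ ∀ s ∈ l, |s.2| ≤ C

theorem Bd.mono {C C' : ℤ} {g : F} (h : Bd C g) (hC : C ≤ C') : Bd C' g := by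
  obtain ⟨l, h1, h2, h3⟩ := h
  exact ⟨l, h1, h2, fun s hs => (h3 s hs).trans hC⟩

theorem bd_one {C : ℤ} : Bd C 1 := ⟨[], Red.nil, rfl, by simp⟩

theorem Bd.inv {C : ℤ} {g : F} (h : Bd C g) : Bd C g⁻¹ := by
  obtain ⟨l, h1, h2, h3⟩ := h
  refine ⟨(l.map fun s => (s.1, -s.2)).reverse, ⟨?_, ?_⟩, ?_, ?_⟩
  · rw [List.isChain_reverse, List.isChain_map]
    exact h1.1.imp fun s t hst e => hst e.symm
  · intro s hs
    rw [List.mem_reverse, List.mem_map] at hs
    obtain ⟨t, ht, rfl⟩ := hs
    exact neg_ne_zero.2 (h1.2 t ht)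
  · rw [← h2]
    unfold eval
    rw [List.prod_inv_reverse, List.map_reverse, List.map_map, List.map_map]
    congr 2
    apply List.map_congr_left
    intro s _
    simp
  · intro s hs
    rw [List.mem_reverse, List.mem_map] at hs
    obtain ⟨t, ht, rfl⟩ := hs
    rw [abs_neg]
    exact h3 t ht

theorem Bd.syl_mul {C : ℤ} {g : F} (h : Bd C g) (hC : 0 ≤ C) (i : Fin 2) (n : ℤ) :
    Bd (C + |n|) (gen i ^ n * g) := by
  have hn0 := abs_nonneg n
  by_cases hn : n = 0
  · subst hn
    rw [zpow_zero, one_mul, abs_zero, add_zero]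
    exact h
  obtain ⟨l, h1, h2, h3⟩ := h
  rcases l with _ | ⟨⟨j, m⟩, l⟩
  · refine ⟨[(i, n)], red_singleton hn, ?_, ?_⟩
    · rw [← h2]; simp
    · simp [hC]
  · by_cases hij : i = j
    · subst hij
      by_cases hs : n + m = 0
      · refine ⟨l, h1.tail, ?_, fun s hs => ?_⟩
        · rw [← h2, eval_cons, ← mul_assoc, ← zpow_add, hs, zpow_zero, one_mul]
        · have := h3 s (List.mem_cons_of_mem _ hs)
          linarith
      · refine ⟨(i, n + m) :: l, ?_, ?_, ?_⟩
        · rcases l with _ | ⟨t, l⟩
          · exact red_singleton hs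
          · obtain ⟨a1, a2, a3⟩ := red_cons_cons.1 h1
            exact red_cons_cons.2 ⟨a1, hs, a3⟩
        · rw [← h2, eval_cons, eval_cons, ← mul_assoc, ← zpow_add]
        · intro s hs
          rcases List.mem_cons.1 hs with rfl | hs
          · have a1 := h3 (i, m) List.mem_cons_self
            have a2 := abs_add_le n m
            simp only at a1 ⊢
            linarith
          · have := h3 s (List.mem_cons_of_mem _ hs)
            linarith
    · refine ⟨(i, n) :: (j, m) :: l, red_cons_cons.2 ⟨hij, hn, h1⟩, ?_, ?_⟩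
      · rw [eval_cons, h2]
      · intro s hs
        rcases List.mem_cons.1 hs with rfl | hs
        · simp only; linarith
        · have := h3 s hs
          linarith

/-! ### Products with long positive or negative words -/

section Form

variable {i j : Fin 2} {n C : ℤ}

/-- The state of a product before the multiplication with the long word. -/
def Q (i : Fin 2) (n C : ℤ) (u : F) : Prop :=
  ∃ l, Red l ∧ eval l = u ∧ (∀ s ∈ l, |s.2| ≤ |n| + 2 * C) ∧
    ∀ s ∈ l.head?, |s.2| ≤ C ∨ (s.1 = i ∧ 0 < s.2 * n)

/-- The state of a product after the multiplication with the long word. -/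
def Q' (i : Fin 2) (n C : ℤ) (u : F) : Prop :=
  ∃ l, Red ((i, n) :: l) ∧ eval ((i, n) :: l) = u ∧ ∀ s ∈ l, |s.2| ≤ |n| + 2 * C

theorem Q_of_Bd {u : F} (hC : 0 ≤ C) (h : Bd C u) : Q i n C u := by
  obtain ⟨l, h1, h2, h3⟩ := h
  have := abs_nonneg n
  refine ⟨l, h1, h2, fun s hs => ?_, fun s hs => Or.inl (h3 s (List.mem_of_mem_head? hs))⟩
  have := h3 s hs
  linarith

theorem Q'_of_Q (hij : i ≠ j) (hC : 0 ≤ C) (hn : C < |n|) {u : F} (h : Q i n C u) :
    Q' i n C (gen i ^ n * gen j ^ n * u) := by
  obtain ⟨l, h1, h2, h3, h4⟩ := h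
  have hn0 : n ≠ 0 := by
    rintro rfl
    rw [abs_zero] at hn
    exact absurd hn (not_lt.2 hC)
  rcases l with _ | ⟨⟨k, m⟩, l⟩
  · refine ⟨[(j, n)], red_cons_cons.2 ⟨hij, hn0, red_singleton hn0⟩, ?_, ?_⟩
    · rw [← h2]; simp
    · simp only [List.mem_singleton, forall_eq]
      linarith
  · have hm := h4 (k, m) (by simp)
    by_cases hk : k = j
    · subst hk
      have hmC : |m| ≤ C := by
        rcases hm with hm | hm
        · exact hm
        · exact absurd hm.1.symm hij
      have hnm : n + m ≠ 0 := by
        intro e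
        have : n = -m := by linarith
        rw [this, abs_neg] at hn
        exact absurd hn (not_lt.2 hmC)
      refine ⟨(k, n + m) :: l, red_cons_cons.2 ⟨hij, hn0, ?_⟩, ?_, ?_⟩
      · rcases l with _ | ⟨t, l⟩
        · exact red_singleton hnm
        · obtain ⟨a1, a2, a3⟩ := red_cons_cons.1 h1
          exact red_cons_cons.2 ⟨a1, hnm, a3⟩
      · rw [← h2]
        simp only [eval_cons, zpow_add]
        group
      · intro s hs
        rcases List.mem_cons.1 hs with rfl | hs
        · have := abs_add_le n m
          simp only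
          linarith
        · exact h3 s (List.mem_cons_of_mem _ hs)
    · refine ⟨(j, n) :: (k, m) :: l,
        red_cons_cons.2 ⟨hij, hn0, red_cons_cons.2 ⟨fun e => hk e.symm, hn0, h1⟩⟩, ?_, ?_⟩
      · rw [← h2]
        simp only [eval_cons]
        group
      · intro s hs
        rcases List.mem_cons.1 hs with rfl | hs
        · simp only
          linarith
        · exact h3 s hs

theorem Q_mul_of_Q' (hC : 0 ≤ C) (hn : C < |n|) {D v : F} (hD : Bd C D) (h : Q' i n C v) :
    Q i n C (D * v) ∧ D * v ≠ 1 := by
  obtain ⟨l, h1, h2, h3⟩ := h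
  obtain ⟨d, d1, d2, d3⟩ := hD
  have hn0 : n ≠ 0 := by
    rintro rfl
    rw [abs_zero] at hn
    exact absurd hn (not_lt.2 hC)
  have hnn : 0 < n * n := mul_self_pos.2 hn0
  -- it suffices to find the list
  suffices H : ∃ l', l' ≠ [] ∧ Red l' ∧ eval l' = D * v ∧ (∀ s ∈ l', |s.2| ≤ |n| + 2 * C) ∧
      ∀ s ∈ l'.head?, |s.2| ≤ C ∨ (s.1 = i ∧ 0 < s.2 * n) by
    obtain ⟨l', a1, a2, a3, a4, a5⟩ := H
    exact ⟨⟨l', a2, a3, a4, a5⟩, by rw [← a3]; exact eval_ne_one a2 a1⟩
  rcases List.eq_nil_or_concat d with rfl | ⟨d', ⟨k, m⟩, rfl⟩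
  · refine ⟨(i, n) :: l, by simp, h1, by rw [h2, ← d2]; simp, ?_, ?_⟩
    · intro s hs
      rcases List.mem_cons.1 hs with rfl | hs
      · simp only; linarith
      · exact h3 s hs
    · intro s hs
      simp only [List.head?_cons, Option.mem_def, Option.some.injEq] at hs
      subst hs
      exact Or.inr ⟨rfl, hnn⟩
  · have hmC : |m| ≤ C := d3 (k, m) (by simp)
    have hchain : ∀ (x : ℤ), x ≠ 0 → Red ((i, x) :: l) := by
      intro x hx
      rcases l with _ | ⟨t, l⟩
      · exact red_singleton hx
      · obtain ⟨a1, a2, a3⟩ := red_cons_cons.1 h1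
        exact red_cons_cons.2 ⟨a1, hx, a3⟩
    by_cases hk : k = i
    · subst hk
      have hnm : m + n ≠ 0 := by
        intro e
        have : n = -m := by linarith
        rw [this, abs_neg] at hn
        exact absurd hn (not_lt.2 hmC)
      have hsgn : 0 < (m + n) * n := by
        have e1 : |m * n| ≤ C * |n| := by
          rw [abs_mul]; exact mul_le_mul_of_nonneg_right hmC (abs_nonneg _)
        have e2 : C * |n| < |n| * |n| := mul_lt_mul_of_pos_right hn (abs_pos.2 hn0)
        have e3 : |n| * |n| = n * n := abs_mul_abs_self n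
        have e4 := neg_abs_le (m * n)
        nlinarith
      refine ⟨d' ++ (k, m + n) :: l, by simp, ⟨?_, ?_⟩, ?_, ?_, ?_⟩
      · have hd := d1.1
        rw [List.concat_eq_append] at hd
        rw [List.isChain_append] at hd ⊢
        refine ⟨hd.1, (hchain _ hnm).1, ?_⟩
        intro x hx y hy
        have := hd.2.2 x hx (k, m) (by simp)
        simp only [List.head?_cons, Option.mem_def, Option.some.injEq] at hy
        subst hy
        exact this
      · intro s hs
        rcases List.mem_append.1 hs with hs | hs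
        · exact d1.2 s (by simp [hs])
        · exact (hchain _ hnm).2 s hs
      · rw [← d2, ← h2, List.concat_eq_append]
        simp only [eval_append, eval_cons, eval_nil, zpow_add]
        group
      · intro s hs
        rcases List.mem_append.1 hs with hs | hs
        · have := d3 s (by simp [hs])
          have := abs_nonneg n
          linarith
        · rcases List.mem_cons.1 hs with rfl | hs
          · have := abs_add_le m n
            simp only
            linarith
          · exact h3 s hs
      · intro s hs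
        rcases d' with _ | ⟨t, d'⟩
        · simp only [List.nil_append, List.head?_cons, Option.mem_def, Option.some.injEq] at hs
          subst hs
          exact Or.inr ⟨rfl, hsgn⟩
        · simp only [List.cons_append, List.head?_cons, Option.mem_def,
            Option.some.injEq] at hs
          subst hs
          exact Or.inl (d3 t (by simp))
    · refine ⟨d' ++ (k, m) :: (i, n) :: l, by simp, ⟨?_, ?_⟩, ?_, ?_, ?_⟩
      · have hd := d1.1
        rw [List.concat_eq_append] at hd
        rw [List.isChain_append] at hd ⊢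
        refine ⟨hd.1, ?_, ?_⟩
        · rw [List.isChain_cons_cons]
          exact ⟨hk, h1.1⟩
        · intro x hx y hy
          have := hd.2.2 x hx (k, m) (by simp)
          simp only [List.head?_cons, Option.mem_def, Option.some.injEq] at hy
          subst hy
          exact this
      · intro s hs
        rcases List.mem_append.1 hs with hs | hs
        · exact d1.2 s (by simp [hs])
        · rcases List.mem_cons.1 hs with rfl | hs
          · exact d1.2 (k, m) (by simp)
          · exact h1.2 s hs
      · rw [← d2, ← h2, List.concat_eq_append]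
        simp only [eval_append, eval_cons, eval_nil]
        group
      · intro s hs
        rcases List.mem_append.1 hs with hs | hs
        · have := d3 s (by simp [hs])
          have := abs_nonneg n
          linarith
        · rcases List.mem_cons.1 hs with rfl | hs
          · have := abs_nonneg n
            simp only
            linarith
          · rcases List.mem_cons.1 hs with rfl | hs
            · simp only; linarith
            · exact h3 s hs
      · intro s hs
        refine Or.inl (d3 s ?_)
        rcases d' with _ | ⟨t, d'⟩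
        · simp only [List.nil_append, List.head?_cons, Option.mem_def, Option.some.injEq] at hs
          subst hs
          simp
        · simp only [List.cons_append, List.head?_cons, Option.mem_def,
            Option.some.injEq] at hs
          subst hs
          simp

end Form

end Pool.Agent.X264.AR
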