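import Pool.Agent.X264.AR.Walk

/-!
# The probabilistic part of the argument (for `MP_3ace2b_pr`)
-/

set_option autoImplicit false

namespace Pool.Agent.X264.AR

open MeasureTheory Finset
open scoped ENNReal

/-- The probability of the type `k`. -/
noncomputable def pr (k : ℕ) : ℝ := 1 / (((k : ℝ) + 1) * ((k : ℝ) + 2))

theorem pr_pos (k : ℕ) : 0 < pr k := by unfold pr; positivity

theorem sum_pr (h n : ℕ) :
    ∑ k ∈ range n, pr (k + h) = 1 / ((h : ℝ) + 1) - 1 / ((n : ℝ) + h + 1) := by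
  induction n with
  | zero => simp
  | succ n ih =>
    rw [sum_range_succ, ih, pr]
    push_cast
    have h1 : (h : ℝ) + 1 ≠ 0 := by positivity
    have h2 : (n : ℝ) + h + 1 ≠ 0 := by positivity
    have h3 : (n : ℝ) + 1 + h + 1 ≠ 0 := by positivity
    have h4 : (n : ℝ) + h + 2 ≠ 0 := by positivity
    field_simp
    ring

theorem hasSum_pr (h : ℕ) : HasSum (fun k => pr (k + h)) (1 / ((h : ℝ) + 1)) := by
  rw [hasSum_iff_tendsto_nat_of_nonneg fun k => (pr_pos _).le]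
  simp_rw [sum_pr]
  have h1 : Filter.Tendsto (fun n : ℕ => 1 / ((n : ℝ) + h + 1)) Filter.atTop (nhds 0) := by
    have := tendsto_one_div_add_atTop_nhds_zero_nat (𝕜 := ℝ)
    have h2 := (Filter.tendsto_add_atTop_iff_nat h).2 this
    refine h2.congr fun n => ?_
    push_cast
    rfl
  have h3 := h1.const_sub (1 / ((h : ℝ) + 1))
  simpa using h3

theorem tsum_pr (h : ℕ) : ∑' k, ENNReal.ofReal (pr (k + h)) = ENNReal.ofReal (1 / ((h : ℝ) + 1)) := by
  rw [← ENNReal.ofReal_tsum_of_nonneg (fun k => (pr_pos _).le) (hasSum_pr h).summable,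
    (hasSum_pr h).tsum_eq]

/-- The law of the increments, on the labels. -/
noncomputable def ν : PMF (ℕ × Bool) :=
  ⟨fun s => ENNReal.ofReal (pr s.1 / 2), by
    have : ∑' s : ℕ × Bool, ENNReal.ofReal (pr s.1 / 2) = 1 := by
      rw [ENNReal.tsum_prod']
      have e : ∀ k : ℕ, ∑' _ : Bool, ENNReal.ofReal (pr k / 2) = ENNReal.ofReal (pr (k + 0)) := by
        intro k
        have := pr_pos k
        rw [tsum_bool, ← ENNReal.ofReal_add (by positivity) (by positivity), add_halves,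
          add_zero]
      simp_rw [e]
      rw [tsum_pr 0]
      simp
    rw [← this]
    exact ENNReal.summable.hasSum⟩

theorem ν_apply (s : ℕ × Bool) : ν s = ENNReal.ofReal (pr s.1 / 2) := rfl

theorem ν_ne (s : ℕ × Bool) : ν s ≠ 0 := by
  rw [ν_apply, ne_eq, ENNReal.ofReal_eq_zero, not_le]
  exact half_pos (pr_pos _)

/-- The law of the increments. -/
noncomputable def μ : PMF F := ν.map step

theorem μ_symm (g : F) : μ g⁻¹ = μ g := by
  classical
  rw [μ, PMF.map_apply, PMF.map_apply]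
  let e : ℕ × Bool ≃ ℕ × Bool := Equiv.prodCongr (Equiv.refl _) Equiv.boolNot
  rw [← Equiv.tsum_eq e]
  congr 1
  ext s
  have h1 : step (e s) = (step s)⁻¹ := by
    obtain ⟨k, s⟩ := s
    rw [step_inv]
    rfl
  have h2 : ν (e s) = ν s := rfl
  rw [h1, h2]
  by_cases hg : g = step s
  · rw [if_pos (by rw [hg]), if_pos hg]
  · rw [if_neg (fun h => hg (inv_injective h)), if_neg hg]

theorem μ_gen : Subgroup.closure (μ.support) = ⊤ := by
  rw [eq_top_iff, ← FreeGroup.closure_range_of, Subgroup.closure_le]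
  rintro _ ⟨i, rfl⟩
  apply Subgroup.subset_closure
  rw [μ, PMF.mem_support_map_iff]
  fin_cases i
  · exact ⟨(0, true), (PMF.mem_support_iff _ _).2 (ν_ne _), rfl⟩
  · exact ⟨(1, true), (PMF.mem_support_iff _ _).2 (ν_ne _), rfl⟩

/-- The law of the sequence of the labels. -/
noncomputable abbrev P : Measure (ℕ → ℕ × Bool) := Measure.infinitePi fun _ => ν.toMeasure

theorem ν_fst (k : ℕ) : ν.toMeasure {s | s.1 = k} = ENNReal.ofReal (pr k) := by
  have e : {s : ℕ × Bool | s.1 = k} = (({(k, true), (k, false)} : Finset (ℕ × Bool)) : Set _) := by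
    ext ⟨a, b⟩
    cases b <;> simp
  rw [e, PMF.toMeasure_apply_finset]
  rw [sum_insert (by simp), sum_singleton, ν_apply, ν_apply]
  have := pr_pos k
  rw [← ENNReal.ofReal_add (by positivity) (by positivity), add_halves]

theorem ν_tail (h : ℕ) : ν.toMeasure {s | h ≤ s.1} = ENNReal.ofReal (1 / ((h : ℝ) + 1)) := by
  have e : {s : ℕ × Bool | h ≤ s.1} = ⋃ k, {s | s.1 = k + h} := by
    ext s
    simp only [Set.mem_ofPred_eq, Set.mem_iUnion]
    constructor
    · intro hs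
      exact ⟨s.1 - h, by omega⟩
    · rintro ⟨k, hk⟩
      omega
  rw [e, measure_iUnion _ fun _ => MeasurableSet.of_discrete]
  · simp_rw [ν_fst]
    exact tsum_pr h
  · intro k l hkl
    rw [Function.onFun, Set.disjoint_left]
    rintro s hs hs'
    simp only [Set.mem_ofPred_eq] at hs hs'
    omega

theorem ν_head (h : ℕ) :
    ν.toMeasure {s | s.1 < h} = ENNReal.ofReal ((h : ℝ) / ((h : ℝ) + 1)) := by
  have e : {s : ℕ × Bool | s.1 < h} = {s | h ≤ s.1}ᶜ := by ext s; simp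
  rw [e, prob_compl_eq_one_sub MeasurableSet.of_discrete, ν_tail, ← ENNReal.ofReal_one,
    ← ENNReal.ofReal_sub _ (by positivity)]
  congr 1
  have : (h : ℝ) + 1 ≠ 0 := by positivity
  field_simp
  ring

/-- The first bad event: no large type. -/
theorem bad_one (h n : ℕ) (hh : 0 < h) (hn : 0 < n) :
    P {z | ∀ i < n, (z i).1 < h} ≤ ENNReal.ofReal ((h : ℝ) / n) := by
  have e : {z : ℕ → ℕ × Bool | ∀ i < n, (z i).1 < h} =
      Set.pi (range n) fun _ => {s | s.1 < h} := by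
    ext z
    simp
  rw [e, Measure.infinitePi_pi _ fun _ _ => MeasurableSet.of_discrete]
  rw [prod_const, card_range, ν_head, ← ENNReal.ofReal_pow (by positivity)]
  apply ENNReal.ofReal_le_ofReal
  have hh' : (0 : ℝ) < h := by exact_mod_cast hh
  have hn' : (0 : ℝ) < n := by exact_mod_cast hn
  have b := one_add_mul_le_pow (a := 1 / (h : ℝ)) (by
    have : (0 : ℝ) < 1 / h := by positivity
    linarith) n
  calc ((h : ℝ) / (h + 1)) ^ n = ((1 + 1 / (h : ℝ)) ^ n)⁻¹ := by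
        rw [← inv_pow]; congr 1; field_simp
    _ ≤ ((n : ℝ) / h)⁻¹ := by
        apply inv_anti₀ (by positivity)
        refine le_trans ?_ b
        have : (n : ℝ) / h = n * (1 / h) := by field_simp
        rw [this]
        linarith
    _ = (h : ℝ) / n := inv_div _ _

/-- A coincidence of types. -/
theorem coincidence (h i j : ℕ) (hij : i ≠ j) :
    P {z | (z i).1 = (z j).1 ∧ h ≤ (z i).1} ≤ ENNReal.ofReal (1 / ((h : ℝ) + 1) ^ 3) := by
  have e : {z : ℕ → ℕ × Bool | (z i).1 = (z j).1 ∧ h ≤ (z i).1} ⊆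
      ⋃ k, Set.pi (({i, j} : Finset ℕ) : Set ℕ) fun _ => {s | s.1 = k + h} := by
    intro z hz
    simp only [Set.mem_ofPred_eq] at hz
    simp only [Set.mem_iUnion, Set.mem_pi, Finset.mem_coe, Finset.mem_insert,
      Finset.mem_singleton, Set.mem_ofPred_eq, forall_eq_or_imp, forall_eq]
    exact ⟨(z i).1 - h, by omega, by omega⟩
  refine (measure_mono e).trans ((measure_iUnion_le _).trans ?_)
  have e2 : ∀ k, P (Set.pi (({i, j} : Finset ℕ) : Set ℕ) fun _ => {s | s.1 = k + h}) ≤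
      ENNReal.ofReal (1 / ((h : ℝ) + 1) ^ 2) * ENNReal.ofReal (pr (k + h)) := by
    intro k
    rw [Measure.infinitePi_pi _ fun _ _ => MeasurableSet.of_discrete]
    rw [prod_pair hij, ν_fst]
    gcongr
    rw [pr]
    apply one_div_le_one_div_of_le (by positivity)
    push_cast
    nlinarith [(Nat.cast_nonneg k : (0 : ℝ) ≤ k), (Nat.cast_nonneg h : (0 : ℝ) ≤ h)]
  refine (ENNReal.tsum_le_tsum e2).trans ?_
  rw [ENNReal.tsum_mul_left, tsum_pr, ← ENNReal.ofReal_mul (by positivity)]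
  apply le_of_eq
  congr 1
  field_simp

/-- The second bad event: two equal large types. -/
theorem bad_two (h n : ℕ) :
    P {z | ∃ i < n, ∃ j < n, i ≠ j ∧ (z i).1 = (z j).1 ∧ h ≤ (z i).1} ≤
      ENNReal.ofReal ((n : ℝ) ^ 2 / ((h : ℝ) + 1) ^ 3) := by
  have e : {z : ℕ → ℕ × Bool | ∃ i < n, ∃ j < n, i ≠ j ∧ (z i).1 = (z j).1 ∧ h ≤ (z i).1} ⊆
      ⋃ i ∈ range n, ⋃ j ∈ (range n).filter (i ≠ ·),
        {z | (z i).1 = (z j).1 ∧ h ≤ (z i).1} := by
    rintro z ⟨i, hi, j, hj, hij, h1, h2⟩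
    simp only [Set.mem_iUnion, Finset.mem_filter, Finset.mem_range]
    exact ⟨i, hi, j, ⟨hj, hij⟩, h1, h2⟩
  refine (measure_mono e).trans ((measure_biUnion_finset_le _ _).trans ?_)
  have e1 : ∀ i ∈ range n, P (⋃ j ∈ (range n).filter (i ≠ ·),
      {z | (z i).1 = (z j).1 ∧ h ≤ (z i).1}) ≤
        n * ENNReal.ofReal (1 / ((h : ℝ) + 1) ^ 3) := by
    intro i _
    refine (measure_biUnion_finset_le _ _).trans ?_
    refine (sum_le_card_nsmul _ _ (ENNReal.ofReal (1 / ((h : ℝ) + 1) ^ 3)) ?_).trans ?_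
    · intro j hj
      exact coincidence h i j (Finset.mem_filter.1 hj).2
    · rw [nsmul_eq_mul]
      gcongr
      exact (card_filter_le _ _).trans (by simp)
  refine (sum_le_card_nsmul _ _ _ e1).trans ?_
  rw [nsmul_eq_mul, card_range, ← mul_assoc]
  rw [← ENNReal.ofReal_natCast, ← ENNReal.ofReal_mul (by positivity),
    ← ENNReal.ofReal_mul (by positivity)]
  apply ENNReal.ofReal_le_ofReal
  apply le_of_eq
  field_simp

/-- The good event at the scale `j`. -/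
def G (j : ℕ) (z : ℕ → ℕ × Bool) : Prop :=
  (∃ i < 64 ^ j, 32 ^ j ≤ (z i).1) ∧
    ∀ a < 64 ^ (j + 1), ∀ b < 64 ^ (j + 1), a ≠ b → (z a).1 = (z b).1 → (z a).1 < 32 ^ j

theorem G_compl (j : ℕ) (hj : 6 ≤ j) : P {z | ¬ G j z} ≤ ENNReal.ofReal (2 * (1 / 2) ^ j) := by
  have e : {z : ℕ → ℕ × Bool | ¬ G j z} ⊆ {z | ∀ i < 64 ^ j, (z i).1 < 32 ^ j} ∪
      {z | ∃ a < 64 ^ (j + 1), ∃ b < 64 ^ (j + 1), a ≠ b ∧ (z a).1 = (z b).1 ∧
        32 ^ j ≤ (z a).1} := by
    intro z hz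
    simp only [Set.mem_ofPred_eq, G, not_and_or] at hz
    rcases hz with hz | hz
    · left
      push Not at hz
      exact hz
    · right
      push Not at hz
      exact hz
  refine (measure_mono e).trans ((measure_union_le _ _).trans ?_)
  refine (add_le_add (bad_one (32 ^ j) (64 ^ j) (by positivity) (by positivity))
    (bad_two (32 ^ j) (64 ^ (j + 1)))).trans ?_
  rw [← ENNReal.ofReal_add (by positivity) (by positivity)]
  apply ENNReal.ofReal_le_ofReal
  push_cast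
  have h1 : (32 : ℝ) ^ j / 64 ^ j = (1 / 2) ^ j := by
    rw [← div_pow]; norm_num
  have h2 : ((64 : ℝ) ^ (j + 1)) ^ 2 / (32 ^ j + 1) ^ 3 ≤ (1 / 2) ^ j := by
    have h3 : ((32 : ℝ) ^ j) ^ 3 ≤ (32 ^ j + 1) ^ 3 := by gcongr; linarith
    have h4 : ((64 : ℝ) ^ (j + 1)) ^ 2 / (32 ^ j + 1) ^ 3 ≤
        ((64 : ℝ) ^ (j + 1)) ^ 2 / (32 ^ j) ^ 3 := by gcongr
    refine h4.trans ?_
    have h5 : ((64 : ℝ) ^ (j + 1)) ^ 2 / (32 ^ j) ^ 3 = 4096 * (1 / 8) ^ j := by
      rw [← pow_mul, ← pow_mul, mul_comm (j + 1) 2, mul_comm j 3, pow_mul, pow_mul, pow_succ,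
        mul_comm _ ((64 : ℝ) ^ 2), mul_div_assoc, ← div_pow]
      norm_num
    rw [h5]
    have h6 : (1 / 8 : ℝ) ^ j = (1 / 4) ^ j * (1 / 2) ^ j := by
      rw [← mul_pow]; norm_num
    rw [h6, ← mul_assoc]
    have h7 : (1 / 4 : ℝ) ^ j ≤ (1 / 4) ^ 6 :=
      pow_le_pow_of_le_one (by norm_num) (by norm_num) hj
    have h8 : (4096 : ℝ) * (1 / 4) ^ j ≤ 1 := by
      calc (4096 : ℝ) * (1 / 4) ^ j ≤ 4096 * (1 / 4) ^ 6 := by gcongr
        _ = 1 := by norm_num
    calc (4096 : ℝ) * (1 / 4) ^ j * (1 / 2) ^ j ≤ 1 * (1 / 2) ^ j := by gcongr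
      _ = _ := one_mul _
  rw [h1]
  linarith

theorem good_of_G (z : ℕ → ℕ × Bool) (h : ∀ j, 6 ≤ j → G j z) : Good z (64 ^ 6) := by
  intro m hm
  -- the scale
  obtain ⟨j, hj6, hj1, hj2⟩ : ∃ j, 6 ≤ j ∧ 64 ^ j ≤ m ∧ m < 64 ^ (j + 1) := by
    have hm0 : m ≠ 0 := by
      have : 0 < 64 ^ 6 := by norm_num
      omega
    refine ⟨Nat.log 64 m, ?_, Nat.pow_log_le_self 64 hm0, Nat.lt_pow_succ_log_self (by norm_num) m⟩
    exact Nat.le_log_of_pow_le (by norm_num) hm
  obtain ⟨⟨i, hi, hi'⟩, hb⟩ := h j hj6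
  -- the maximum
  obtain ⟨T, hT, hmax⟩ := exists_max_image (range m) (fun i => (z i).1)
    ⟨i, mem_range.2 (hi.trans_le hj1)⟩
  rw [mem_range] at hT
  have hTi : 32 ^ j ≤ (z T).1 := hi'.trans (hmax i (mem_range.2 (hi.trans_le hj1)))
  refine ⟨T, hT, ?_, ?_, ?_⟩
  · refine le_trans ?_ hTi
    calc 2 ≤ 32 ^ 1 := by norm_num
      _ ≤ 32 ^ j := Nat.pow_le_pow_right (by norm_num) (by omega)
  · intro a ha hne
    refine lt_of_le_of_ne (hmax a (mem_range.2 ha)) fun e => ?_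
    have := hb T (hT.trans hj2) a (ha.trans hj2) hne.symm e.symm
    omega
  · have h1 : (32 ^ j) ^ 2 ≤ (z T).1 ^ 2 := Nat.pow_le_pow_left hTi 2
    have h2 : 64 ^ j ≤ (32 ^ j) ^ 2 := by
      rw [← pow_mul, mul_comm, pow_mul]
      exact Nat.pow_le_pow_left (by norm_num) j
    calc m ≤ 64 ^ (j + 1) := hj2.le
      _ = 64 * 64 ^ j := by ring
      _ ≤ 64 * (z T).1 ^ 2 := Nat.mul_le_mul_left _ (h2.trans h1)

theorem P_good : P {z | Good z (64 ^ 6)} ≠ 0 := by
  intro h0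
  have e : {z : ℕ → ℕ × Bool | Good z (64 ^ 6)}ᶜ ⊆ ⋃ j, {z | ¬ G (j + 6) z} := by
    intro z hz
    by_contra hne
    apply hz
    apply good_of_G
    intro j hj
    by_contra hG
    apply hne
    rw [Set.mem_iUnion]
    exact ⟨j - 6, by rwa [Set.mem_ofPred_eq, Nat.sub_add_cancel hj]⟩
  have h1 : P {z : ℕ → ℕ × Bool | Good z (64 ^ 6)}ᶜ ≤ ENNReal.ofReal (1 / 2) := by
    refine (measure_mono e).trans ((measure_iUnion_le _).trans ?_)
    refine (ENNReal.tsum_le_tsum fun j => G_compl (j + 6) (by omega)).trans ?_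
    have hs : HasSum (fun j : ℕ => (2 : ℝ) * (1 / 2) ^ (j + 6)) (1 / 16) := by
      have h5 := (hasSum_geometric_two).mul_left (1 / 32 : ℝ)
      have e1 : (fun j : ℕ => (2 : ℝ) * (1 / 2) ^ (j + 6)) = fun j => 1 / 32 * (1 / 2) ^ j := by
        funext j
        rw [pow_add]
        ring
      have e2 : (1 / 16 : ℝ) = 1 / 32 * 2 := by norm_num
      rw [e1, e2]
      exact h5
    rw [← ENNReal.ofReal_tsum_of_nonneg (fun j => by positivity) hs.summable, hs.tsum_eq]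
    apply ENNReal.ofReal_le_ofReal
    norm_num
  have h2 : (1 : ℝ≥0∞) ≤ P {z : ℕ → ℕ × Bool | Good z (64 ^ 6)} +
      P {z : ℕ → ℕ × Bool | Good z (64 ^ 6)}ᶜ := by
    rw [← measure_univ (μ := P), ← Set.union_compl_self {z : ℕ → ℕ × Bool | Good z (64 ^ 6)}]
    exact measure_union_le _ _
  rw [h0, zero_add] at h2
  have h3 := h2.trans h1
  rw [← ENNReal.ofReal_one, ENNReal.ofReal_le_ofReal_iff (by norm_num)] at h3
  norm_num at h3

end Pool.Agent.X264.AR
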