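import Pool.Agent.X264.AR.Comb

/-!
# The deterministic part of the argument (for `MP_3ace2b_pr`)
-/

set_option autoImplicit false

namespace Pool.Agent.X264.AR

/-- The exponents. -/
def N : ℕ → ℤ
  | 0 => 1
  | k + 1 => (512 * ((k : ℤ) + 1) ^ 2 + 4) * N k

theorem N_pos (k : ℕ) : 0 < N k := by
  induction k with
  | zero => exact one_pos
  | succ k ih => exact mul_pos (by positivity) ih

theorem N_succ (k : ℕ) : N (k + 1) = (512 * ((k : ℤ) + 1) ^ 2 + 4) * N k := rfl

theorem N_le_succ (k : ℕ) : N k ≤ N (k + 1) := by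
  rw [N_succ]
  have := N_pos k
  nlinarith [sq_nonneg ((k : ℤ) + 1)]

theorem N_mono {k l : ℕ} (h : k ≤ l) : N k ≤ N l := monotone_nat_of_le_succ N_le_succ h

/-- The words. -/
def w : ℕ → F
  | 0 => gen 0
  | 1 => gen 1
  | k + 2 => gen 0 ^ N (k + 2) * gen 1 ^ N (k + 2)

/-- The possible increments. -/
def step (s : ℕ × Bool) : F := if s.2 then w s.1 else (w s.1)⁻¹

theorem step_inv (k : ℕ) (s : Bool) : (step (k, s))⁻¹ = step (k, !s) := by
  cases s <;> simp [step]

theorem Bd.step_mul {C : ℤ} {g : F} (h : Bd C g) (hC : 0 ≤ C) (s : ℕ × Bool) :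
    Bd (C + 2 * N s.1) (step s * g) := by
  obtain ⟨k, s⟩ := s
  have hN := N_pos k
  have one (i : Fin 2) : Bd (C + 2 * N k) (gen i * g) := by
    have := h.syl_mul hC i 1
    rw [zpow_one, abs_one] at this
    exact this.mono (by linarith [Int.add_one_le_iff.2 hN])
  have one' (i : Fin 2) : Bd (C + 2 * N k) ((gen i)⁻¹ * g) := by
    have := h.syl_mul hC i (-1)
    rw [zpow_neg_one, abs_neg, abs_one] at this
    exact this.mono (by linarith [Int.add_one_le_iff.2 hN])
  match k, s with
  | 0, true => exact one 0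
  | 0, false => exact one' 0
  | 1, true => exact one 1
  | 1, false => exact one' 1
  | k + 2, true =>
    have h1 := h.syl_mul hC 1 (N (k + 2))
    have h2 := h1.syl_mul (by positivity) 0 (N (k + 2))
    simp only [step, w, if_true]
    rw [mul_assoc]
    refine h2.mono ?_
    rw [abs_of_pos hN]
    linarith
  | k + 2, false =>
    have h1 := h.syl_mul hC 0 (-N (k + 2))
    have h2 := h1.syl_mul (by positivity) 1 (-N (k + 2))
    simp only [step, w, Bool.false_eq_true, if_false, mul_inv_rev, ← zpow_neg]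
    rw [mul_assoc]
    refine h2.mono ?_
    rw [abs_neg, abs_of_pos hN]
    linarith

theorem Bd.mul_step {C : ℤ} {g : F} (h : Bd C g) (hC : 0 ≤ C) (s : ℕ × Bool) :
    Bd (C + 2 * N s.1) (g * step s) := by
  have h1 := (h.inv.step_mul hC (s.1, !s.2)).inv
  rw [← step_inv, mul_inv_rev, inv_inv, inv_inv] at h1
  exact h1

/-- Products of increments. -/
def prodSteps (l : List (ℕ × Bool)) : F := (l.map step).prod

theorem Bd.prodSteps_mul {C : ℤ} {g : F} (h : Bd C g) (hC : 0 ≤ C) {k : ℕ}
    {l : List (ℕ × Bool)} (hl : ∀ s ∈ l, s.1 ≤ k) :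
    Bd (C + 2 * l.length * N k) (prodSteps l * g) := by
  have hN := N_pos k
  induction l with
  | nil => simpa [prodSteps] using h
  | cons s l ih =>
    have h1 := ih fun t ht => hl t (List.mem_cons_of_mem _ ht)
    have h2 := h1.step_mul (by positivity) s
    have e : prodSteps (s :: l) * g = step s * (prodSteps l * g) := by
      simp [prodSteps, mul_assoc]
    rw [e]
    refine h2.mono ?_
    have := N_mono (hl s List.mem_cons_self)
    push_cast [List.length_cons]
    linarith

theorem Bd.mul_prodSteps {C : ℤ} {g : F} (h : Bd C g) (hC : 0 ≤ C) {k : ℕ}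
    {l : List (ℕ × Bool)} (hl : ∀ s ∈ l, s.1 ≤ k) :
    Bd (C + 2 * l.length * N k) (g * prodSteps l) := by
  have hN := N_pos k
  induction l using List.reverseRecOn with
  | nil => simpa [prodSteps] using h
  | append_singleton l s ih =>
    have h1 := ih fun t ht => hl t (by simp [ht])
    have h2 := h1.mul_step (by positivity) s
    have e : g * prodSteps (l ++ [s]) = g * prodSteps l * step s := by
      simp [prodSteps, mul_assoc]
    rw [e]
    refine h2.mono ?_
    have := N_mono (hl s (by simp))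
    push_cast [List.length_append, List.length_singleton]
    linarith

/-! ### The walk -/

/-- The walk with increments `ω`. -/
def walk {G : Type*} [Monoid G] (ω : ℕ → G) : ℕ → G
  | 0 => 1
  | n + 1 => walk ω n * ω n

theorem walk_step (z : ℕ → ℕ × Bool) (m : ℕ) :
    walk (fun i => step (z i)) m = prodSteps ((List.range m).map z) := by
  induction m with
  | zero => rfl
  | succ m ih =>
    rw [walk, ih, List.range_succ]
    simp [prodSteps]

theorem range_split {T i : ℕ} (h : T < i) :
    List.range i = List.range T ++ T :: List.range' (T + 1) (i - (T + 1)) := by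
  obtain ⟨d, rfl⟩ := Nat.exists_eq_add_of_lt h
  rw [List.range_eq_range', List.range_eq_range']
  have : T + d + 1 - (T + 1) = d := by omega
  rw [this, ← List.range'_succ]
  have := @List.range'_append 0 T (d + 1) 1
  simp only [one_mul, zero_add] at this
  rw [this]
  congr 1

/-- The deterministic hypothesis on the increments. -/
def Good (z : ℕ → ℕ × Bool) (n₀ : ℕ) : Prop :=
  ∀ m ≥ n₀, ∃ T < m, 2 ≤ (z T).1 ∧ (∀ i < m, i ≠ T → (z i).1 < (z T).1) ∧
    m ≤ 64 * (z T).1 ^ 2

/-- The product of the positions of the walk at the times in the list. -/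
def pos (z : ℕ → ℕ × Bool) (L : List ℕ) : F :=
  (L.map fun i => walk (fun i => step (z i)) i).prod

theorem main_claim (z : ℕ → ℕ × Bool) (n₀ : ℕ) (H : Good z n₀) (m : ℕ) (hm : n₀ ≤ m) :
    ∀ L : List ℕ, (∀ i ∈ L, n₀ ≤ i ∧ i ≤ m) →
      (L ≠ [] → pos z L ≠ 1) ∧ ∀ k : ℕ, (∀ i < m, (z i).1 ≤ k) → Bd (2 * N k) (pos z L) := by
  induction m using Nat.strong_induction_on with
  | _ m IH =>
  obtain ⟨T, hTm, hκ, hlt, hmκ⟩ := H m hm
  obtain ⟨κ, hκe⟩ : ∃ κ, (z T).1 = κ + 1 := ⟨(z T).1 - 1, by omega⟩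
  rw [hκe] at hκ hlt hmκ
  have hle : ∀ i < m, i ≠ T → (z i).1 ≤ κ := fun i hi hne => Nat.lt_succ_iff.1 (hlt i hi hne)
  have hNκ := N_pos κ
  -- the product of the positions at times at most `T`
  have small : ∀ L : List ℕ, (∀ i ∈ L, n₀ ≤ i ∧ i ≤ T) →
      (L ≠ [] → pos z L ≠ 1) ∧ Bd (2 * N κ) (pos z L) := by
    intro L hL
    by_cases hT : n₀ ≤ T
    · obtain ⟨h1, h2⟩ := IH T hTm hT L hL
      exact ⟨h1, h2 κ fun i hi => hle i (hi.trans hTm) hi.ne⟩
    · have : L = [] := by
        rcases L with _ | ⟨i, L⟩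
        · rfl
        · have := hL i List.mem_cons_self
          omega
      subst this
      exact ⟨fun h => absurd rfl h, bd_one⟩
  set C : ℤ := (4 * m + 2) * N κ with hCdef
  have hC0 : 0 ≤ C := by positivity
  have h2C : 2 * C ≤ N (κ + 1) := by
    rw [N_succ, hCdef]
    have : (m : ℤ) ≤ 64 * ((κ : ℤ) + 1) ^ 2 := by exact_mod_cast hmκ
    nlinarith
  have hn : C < |N (κ + 1)| := by
    rw [abs_of_pos (N_pos _)]
    have : 0 < C := by positivity
    linarith
  have hn' : C < |(-N (κ + 1))| := by rwa [abs_neg]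
  -- the left factor
  have left : ∀ (l l' : List (ℕ × Bool)) (L₁ : List ℕ), (∀ s ∈ l, s.1 ≤ κ) → l.length ≤ m →
      (∀ s ∈ l', s.1 ≤ κ) → l'.length ≤ m → (∀ i ∈ L₁, n₀ ≤ i ∧ i ≤ T) →
      Bd C (prodSteps l * pos z L₁ * prodSteps l') := by
    intro l l' L₁ hl hl1 hl' hl1' hL
    have h1 := (small L₁ hL).2
    have h2 := h1.prodSteps_mul (by positivity) hl
    have h3 := h2.mul_prodSteps (by positivity) hl'
    refine h3.mono ?_
    rw [hCdef]
    have e1 : (l.length : ℤ) * N κ ≤ m * N κ :=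
      mul_le_mul_of_nonneg_right (by exact_mod_cast hl1) hNκ.le
    have e2 : (l'.length : ℤ) * N κ ≤ m * N κ :=
      mul_le_mul_of_nonneg_right (by exact_mod_cast hl1') hNκ.le
    linarith
  -- the induction, for both signs
  have wform : ∃ (i j : Fin 2) (n : ℤ), i ≠ j ∧ |n| = N (κ + 1) ∧
      step (z T) = gen i ^ n * gen j ^ n := by
    obtain ⟨κ', rfl⟩ : ∃ κ', κ = κ' + 1 := ⟨κ - 1, by omega⟩
    rcases hz : z T with ⟨k, s⟩
    rw [hz] at hκe
    simp only at hκe
    subst hκe
    cases s
    · refine ⟨1, 0, -N (κ' + 1 + 1), by decide, ?_, ?_⟩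
      · rw [abs_neg, abs_of_pos (N_pos _)]
      · simp [step, w]
    · refine ⟨0, 1, N (κ' + 1 + 1), by decide, ?_, ?_⟩
      · rw [abs_of_pos (N_pos _)]
      · simp [step, w]
  obtain ⟨a, b, n, hab, hnabs, hw⟩ := wform
  have hCn : C < |n| := by rw [hnabs]; rwa [abs_of_pos (N_pos _)] at hn
  have Ψ : ∀ L : List ℕ, (∀ i ∈ L, n₀ ≤ i ∧ i ≤ m) → ∀ (l : List (ℕ × Bool)) (L₁ : List ℕ),
      (∀ s ∈ l, s.1 ≤ κ) → l.length ≤ m → (∀ i ∈ L₁, n₀ ≤ i ∧ i ≤ T) →
      Q a n C (prodSteps l * pos z L₁ * pos z L) ∧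
        ((∃ i ∈ L, T < i) → prodSteps l * pos z L₁ * pos z L ≠ 1) := by
    intro L
    induction L with
    | nil =>
      intro _ l L₁ hl hl1 hL₁
      have := left l [] L₁ hl hl1 (by simp) (by simp) hL₁
      refine ⟨Q_of_Bd hC0 this, ?_⟩
      rintro ⟨i, hi, _⟩
      simp at hi
    | cons i L ih =>
      intro hL l L₁ hl hl1 hL₁
      have hi := hL i List.mem_cons_self
      have hL' : ∀ i ∈ L, n₀ ≤ i ∧ i ≤ m := fun j hj => hL j (List.mem_cons_of_mem _ hj)
      by_cases hiT : i ≤ T
      · have e : prodSteps l * pos z L₁ * pos z (i :: L) =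
            prodSteps l * pos z (L₁ ++ [i]) * pos z L := by
          simp [pos, mul_assoc]
        rw [e]
        have hL₁' : ∀ j ∈ L₁ ++ [i], n₀ ≤ j ∧ j ≤ T := by
          intro j hj
          rcases List.mem_append.1 hj with hj | hj
          · exact hL₁ j hj
          · rw [List.mem_singleton] at hj
            subst hj
            exact ⟨hi.1, hiT⟩
        obtain ⟨h1, h2⟩ := ih hL' l (L₁ ++ [i]) hl hl1 hL₁'
        refine ⟨h1, ?_⟩
        rintro ⟨j, hj, hjT⟩
        refine h2 ⟨j, ?_, hjT⟩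
        rcases List.mem_cons.1 hj with rfl | hj
        · omega
        · exact hj
      · push Not at hiT
        -- the decomposition
        set l₀ := (List.range T).map z with hl₀
        set l₂ := (List.range' (T + 1) (i - (T + 1))).map z with hl₂
        have hX : walk (fun i => step (z i)) i = prodSteps l₀ * step (z T) * prodSteps l₂ := by
          rw [walk_step, range_split hiT]
          simp [prodSteps, l₀, l₂, mul_assoc]
        have h0 : ∀ s ∈ l₀, s.1 ≤ κ := by
          intro s hs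
          rw [hl₀, List.mem_map] at hs
          obtain ⟨j, hj, rfl⟩ := hs
          rw [List.mem_range] at hj
          exact hle j (hj.trans hTm) hj.ne
        have h2 : ∀ s ∈ l₂, s.1 ≤ κ := by
          intro s hs
          rw [hl₂, List.mem_map] at hs
          obtain ⟨j, hj, rfl⟩ := hs
          rw [List.mem_range'_1] at hj
          exact hle j (by omega) (by omega)
        have hlen0 : l₀.length ≤ m := by simp [hl₀]; omega
        have hlen2 : l₂.length ≤ m := by simp [hl₂]; omega
        have e : prodSteps l * pos z L₁ * pos z (i :: L) =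
            (prodSteps l * pos z L₁ * prodSteps l₀) *
              (gen a ^ n * gen b ^ n * (prodSteps l₂ * pos z [] * pos z L)) := by
          have : pos z (i :: L) = walk (fun i => step (z i)) i * pos z L := by simp [pos]
          rw [this, hX, hw]
          simp [pos, mul_assoc]
        rw [e]
        have q := Q'_of_Q hab hC0 hCn (ih hL' l₂ [] h2 hlen2 (by simp)).1
        have q' := Q_mul_of_Q' hC0 hCn (left l l₀ L₁ hl hl1 h0 hlen0 hL₁) q
        exact ⟨q'.1, fun _ => q'.2⟩
  intro L hL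
  obtain ⟨q1, q2⟩ := Ψ L hL [] [] (by simp) (by simp) (by simp)
  have e : prodSteps [] * pos z [] * pos z L = pos z L := by simp [prodSteps, pos]
  rw [e] at q1 q2
  refine ⟨fun hne => ?_, fun k hk => ?_⟩
  · by_cases h : ∃ i ∈ L, T < i
    · exact q2 h
    · push Not at h
      exact (small L fun i hi => ⟨(hL i hi).1, h i hi⟩).1 hne
  · obtain ⟨l, a1, a2, a3, _⟩ := q1
    refine ⟨l, a1, a2, fun s hs => (a3 s hs).trans ?_⟩
    rw [hnabs]
    have := hk T hTm
    rw [hκe] at this
    have := N_mono this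
    linarith

/-- The identity is not in the semigroup. -/
theorem one_notMem (z : ℕ → ℕ × Bool) (n₀ : ℕ) (H : Good z n₀) :
    (1 : F) ∉ Subsemigroup.closure {g | ∃ m ≥ n₀, g = walk (fun i => step (z i)) m} := by
  intro h
  have key : ∀ g ∈ Subsemigroup.closure {g | ∃ m ≥ n₀, g = walk (fun i => step (z i)) m},
      ∃ L : List ℕ, L ≠ [] ∧ (∀ i ∈ L, n₀ ≤ i) ∧ g = pos z L := by
    intro g hg
    induction hg using Subsemigroup.closure_induction with
    | mem g hg =>
      obtain ⟨m, hm, rfl⟩ := hg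
      exact ⟨[m], by simp, by simpa using hm, by simp [pos]⟩
    | mul g g' _ _ h1 h2 =>
      obtain ⟨L, a1, a2, rfl⟩ := h1
      obtain ⟨L', b1, b2, rfl⟩ := h2
      refine ⟨L ++ L', by simp [a1], ?_, by simp [pos]⟩
      intro i hi
      rcases List.mem_append.1 hi with hi | hi
      · exact a2 i hi
      · exact b2 i hi
  obtain ⟨L, h1, h2, h3⟩ := key 1 h
  have hle : ∀ i ∈ L, i ≤ L.sum := fun i hi => List.single_le_sum (by simp) i hi
  have hm : n₀ ≤ L.sum := by
    obtain ⟨i, L', rfl⟩ := List.exists_cons_of_ne_nil h1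
    exact (h2 i (by simp)).trans (hle i (by simp))
  exact (main_claim z n₀ H L.sum hm L fun i hi => ⟨h2 i hi, hle i hi⟩).1 h1 h3.symm

end Pool.Agent.X264.AR
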